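import Mathlib

/-!
# An algebra generated by one element over a Noetherian ring is not isomorphic to its square
-/

set_option autoImplicit false

namespace Pool.Agent.Y754.SQ

universe u v

/-- a surjective endomorphism of a commutative Noetherian ring is injective -/
lemma inj_of_surj {A : Type v} [CommRing A] [IsNoetherianRing A] (f : A →+* A)
    (hf : Function.Surjective f) : Function.Injective f := by
  let c : ℕ →o Ideal A :=
    { toFun := fun n => RingHom.ker (f ^ n)
      monotone' := by
        refine monotone_nat_of_le_succ fun n => ?_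
        intro x hx
        rw [RingHom.mem_ker] at hx ⊢
        rw [pow_succ']
        show f ((f ^ n) x) = 0
        rw [hx, map_zero] }
  obtain ⟨n, hn⟩ := (monotone_stabilizes_iff_noetherian (R := A) (M := A)).2 inferInstance c
  have hsurj : ∀ k : ℕ, Function.Surjective (f ^ k) := by
    intro k
    induction k with
    | zero => exact fun x => ⟨x, rfl⟩
    | succ k ih =>
      intro x
      obtain ⟨y, hy⟩ := hf x
      obtain ⟨z, hz⟩ := ih y
      refine ⟨z, ?_⟩
      rw [pow_succ']
      show f ((f ^ k) z) = x
      rw [hz, hy]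
  rw [injective_iff_map_eq_zero]
  intro x hx
  obtain ⟨y, hy⟩ := hsurj n x
  have h1 : y ∈ c (n + 1) := by
    show y ∈ RingHom.ker (f ^ (n + 1))
    rw [RingHom.mem_ker, pow_succ']
    show f ((f ^ n) y) = 0
    rw [hy, hx]
  rw [← hn (n + 1) (by omega)] at h1
  have h2 : (f ^ n) y = 0 := h1
  rw [← hy, h2]

theorem not_square {A : Type v} [CommRing A] [IsNoetherianRing A] [Nontrivial A]
    (φ : A ≃+* A × A) : False := by
  have hs : Function.Surjective ((RingHom.fst A A).comp φ.toRingHom) := by
    intro x
    refine ⟨φ.symm (x, 0), ?_⟩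
    show (φ (φ.symm (x, 0))).1 = x
    rw [RingEquiv.apply_symm_apply]
  have hi := inj_of_surj _ hs
  have h0 : φ.symm (0, 1) = 0 := by
    apply hi
    rw [map_zero]
    show (φ (φ.symm (0, 1))).1 = 0
    rw [RingEquiv.apply_symm_apply]
  rw [RingEquiv.symm_apply_eq, map_zero] at h0
  exact one_ne_zero (congrArg Prod.snd h0)

/-- Over a commutative Noetherian ring no nonzero algebra generated by one element is isomorphic,
as a ring, to its own square. -/
theorem one_gen (K : Type u) [CommRing K] [IsNoetherianRing K] (A : Type v) [Ring A] [Algebra K A]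
    [Nontrivial A] (x : A) (hx : Algebra.adjoin K {x} = ⊤) : IsEmpty (A ≃+* A × A) := by
  refine ⟨fun φ => ?_⟩
  have hsurj : Function.Surjective (Polynomial.aeval (R := K) x) := by
    rw [← AlgHom.range_eq_top, ← Algebra.adjoin_singleton_eq_range_aeval, hx]
  let Q := Polynomial K ⧸ RingHom.ker (Polynomial.aeval (R := K) x)
  let ψ : Q ≃+* A := RingHom.quotientKerEquivOfSurjective
    (f := ((Polynomial.aeval (R := K) x : Polynomial K →ₐ[K] A) : Polynomial K →+* A)) hsurj
  haveI : Nontrivial Q := ψ.toEquiv.nontrivial
  exact not_square (A := Q) ((ψ.trans φ).trans (RingEquiv.prodCongr ψ.symm ψ.symm))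

end Pool.Agent.Y754.SQ
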