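import Mathlib

/-!
# Rings with a Leavitt family: matrix rings and generation by two elements
-/

set_option autoImplicit false

open Finset

namespace Pool.Agent.Y754.SQ

universe u v

variable {K : Type u} [CommRing K] {R : Type v} [Ring R] [Algebra K R]

/-- a Leavitt family of size `m + 1`: `T i * S j = δ i j` and `∑ S i * T i = 1` -/
structure Fam (m : ℕ) (S T : ℕ → R) : Prop where
  one : ∀ i ≤ m, T i * S i = 1
  zero : ∀ i ≤ m, ∀ j ≤ m, i ≠ j → T i * S j = 0
  sum : ∑ i ∈ range (m + 1), S i * T i = 1

/-- from two-element Leavitt families to all finite ones -/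
lemma exists_fam (s0 t0 s1 t1 : R) (h00 : t0 * s0 = 1) (h11 : t1 * s1 = 1) (h01 : t0 * s1 = 0)
    (h10 : t1 * s0 = 0) (hs : s0 * t0 + s1 * t1 = 1) (m : ℕ) :
    ∃ S T : ℕ → R, Fam m S T := by
  induction m with
  | zero =>
    exact ⟨fun _ => 1, fun _ => 1, ⟨fun _ _ => by simp, fun i hi j hj h => by omega, by simp⟩⟩
  | succ m ih =>
    obtain ⟨S, T, h⟩ := ih
    refine ⟨fun i => Nat.casesOn i s0 (fun j => s1 * S j),
      fun i => Nat.casesOn i t0 (fun j => T j * t1), ⟨?_, ?_, ?_⟩⟩
    · intro i hi
      cases i with
      | zero => exact h00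
      | succ i =>
        show T i * t1 * (s1 * S i) = 1
        rw [mul_assoc, ← mul_assoc t1, h11, one_mul, h.one i (by omega)]
    · intro i hi j hj hij
      cases i with
      | zero =>
        cases j with
        | zero => exact absurd rfl hij
        | succ j =>
          show t0 * (s1 * S j) = 0
          rw [← mul_assoc, h01, zero_mul]
      | succ i =>
        cases j with
        | zero =>
          show T i * t1 * s0 = 0
          rw [mul_assoc, h10, mul_zero]
        | succ j =>
          show T i * t1 * (s1 * S j) = 0
          rw [mul_assoc, ← mul_assoc t1, h11, one_mul]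
          exact h.zero i (by omega) j (by omega) (by omega)
    · rw [sum_range_succ']
      show ∑ i ∈ range (m + 1), s1 * S i * (T i * t1) + s0 * t0 = 1
      have : ∑ i ∈ range (m + 1), s1 * S i * (T i * t1) =
          s1 * (∑ i ∈ range (m + 1), S i * T i) * t1 := by
        rw [mul_sum, sum_mul]
        refine sum_congr rfl fun i _ => ?_
        noncomm_ring
      rw [this, h.sum, mul_one, add_comm, hs]

section fam

variable {m : ℕ} {S T : ℕ → R} (h : Fam m S T)

include h

lemma Fam.TS (i j : ℕ) (hi : i ≤ m) (hj : j ≤ m) : T i * S j = if i = j then 1 else 0 := by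
  split_ifs with hij
  · subst hij; exact h.one i hi
  · exact h.zero i hi j hj hij

lemma Fam.expand (r : R) :
    r = ∑ i ∈ range (m + 1), ∑ j ∈ range (m + 1), S i * (T i * r * S j) * T j := by
  calc r = (∑ i ∈ range (m + 1), S i * T i) * r * (∑ j ∈ range (m + 1), S j * T j) := by
        rw [h.sum, one_mul, mul_one]
    _ = _ := by
        rw [sum_mul, sum_mul]
        refine sum_congr rfl fun i _ => ?_
        rw [mul_sum]
        refine sum_congr rfl fun j _ => ?_
        noncomm_ring

/-- the algebra is isomorphic to its matrix ring of size `m + 1` -/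
theorem Fam.matrix : Nonempty (R ≃ₐ[K] Matrix (Fin (m + 1)) (Fin (m + 1)) R) := by
  have hsum : ∀ F : ℕ → R, ∑ k : Fin (m + 1), F k = ∑ k ∈ range (m + 1), F k :=
    fun F => Fin.sum_univ_eq_sum_range F (m + 1)
  let f : R →ₐ[K] Matrix (Fin (m + 1)) (Fin (m + 1)) R :=
    { toFun := fun r => Matrix.of fun i j => T i * r * S j
      map_one' := by
        ext i j
        simp only [Matrix.of_apply, mul_one, Matrix.one_apply]
        rw [h.TS i j (by omega) (by omega)]
        simp only [Fin.ext_iff]
      map_mul' := by
        intro r r'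
        ext i j
        simp only [Matrix.of_apply, Matrix.mul_apply]
        rw [hsum (fun k => T i * r * S k * (T k * r' * S j))]
        calc T i * (r * r') * S j = T i * r * 1 * (r' * S j) := by noncomm_ring
          _ = T i * r * (∑ k ∈ range (m + 1), S k * T k) * (r' * S j) := by rw [h.sum]
          _ = _ := by
              rw [mul_sum, sum_mul]
              refine sum_congr rfl fun k _ => ?_
              noncomm_ring
      map_zero' := by
        ext i j
        simp
      map_add' := by
        intro r r'
        ext i j
        simp only [Matrix.of_apply, Matrix.add_apply]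
        noncomm_ring
      commutes' := by
        intro c
        ext i j
        simp only [Matrix.of_apply, Matrix.algebraMap_matrix_apply]
        rw [← Algebra.commutes c (T i), mul_assoc, h.TS i j (by omega) (by omega)]
        simp only [Fin.ext_iff]
        split_ifs <;> simp }
  refine ⟨AlgEquiv.ofBijective f ⟨?_, ?_⟩⟩
  · intro r r' hrr
    have hij : ∀ i ∈ range (m + 1), ∀ j ∈ range (m + 1), T i * r * S j = T i * r' * S j := by
      intro i hi j hj
      rw [mem_range] at hi hj
      exact congrFun (congrFun hrr ⟨i, hi⟩) ⟨j, hj⟩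
    rw [h.expand r, h.expand r']
    refine sum_congr rfl fun i hi => sum_congr rfl fun j hj => ?_
    rw [hij i hi j hj]
  · intro M
    refine ⟨∑ i : Fin (m + 1), ∑ j : Fin (m + 1), S i * M i j * T j, ?_⟩
    ext a b
    show T a * (∑ i : Fin (m + 1), ∑ j : Fin (m + 1), S i * M i j * T j) * S b = M a b
    rw [mul_sum, sum_mul, Finset.sum_eq_single a]
    · rw [mul_sum, sum_mul, Finset.sum_eq_single b]
      · calc T a * (S a * M a b * T b) * S b = (T a * S a) * M a b * (T b * S b) := by noncomm_ring
          _ = M a b := by rw [h.one a (by omega), h.one b (by omega), one_mul, mul_one]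
      · intro j _ hj
        have : T j * S b = 0 := h.zero j (by omega) b (by omega) (fun e => hj (Fin.ext e))
        calc T a * (S a * M a j * T j) * S b = T a * (S a * M a j) * (T j * S b) := by noncomm_ring
          _ = 0 := by rw [this, mul_zero]
      · intro hb; exact absurd (mem_univ b) hb
    · intro i _ hi
      have : T a * S i = 0 := h.zero a (by omega) i (by omega) (fun e => hi (Fin.ext e.symm))
      rw [mul_sum, sum_mul]
      refine Finset.sum_eq_zero fun j _ => ?_
      calc T a * (S i * M i j * T j) * S b = (T a * S i) * (M i j * T j) * S b := by noncomm_ring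
        _ = 0 := by rw [this, zero_mul, zero_mul]
    · intro ha; exact absurd (mem_univ a) ha

/-- an algebra with a Leavitt family of size `m + 1` and `m ≥ 1` generators is generated by two
elements -/
theorem Fam.two_gen (hm : 1 ≤ m) (g : ℕ → R)
    (hg : ∀ Q : Subalgebra K R, (∀ k < m, g k ∈ Q) → Q = ⊤) :
    ∃ a b : R, Algebra.adjoin K {a, b} = ⊤ := by
  set a : R := ∑ i ∈ range m, S i * T (i + 1) with ha
  set b : R := S m * T 0 + ∑ k ∈ range m, S 0 * g k * T (k + 1) with hb
  refine ⟨a, b, ?_⟩
  set Q := Algebra.adjoin K {a, b} with hQ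
  have haQ : a ∈ Q := Algebra.subset_adjoin (by simp)
  have hbQ : b ∈ Q := Algebra.subset_adjoin (by simp)
  have hTa : ∀ j < m, T j * a = T (j + 1) := by
    intro j hj
    rw [ha, mul_sum, Finset.sum_eq_single j]
    · rw [← mul_assoc, h.one j (by omega), one_mul]
    · intro i hi hij
      rw [mem_range] at hi
      rw [← mul_assoc, h.zero j (by omega) i (by omega) (Ne.symm hij), zero_mul]
    · intro hj'; exact absurd (mem_range.2 hj) hj'
  have hTma : T m * a = 0 := by
    rw [ha, mul_sum]
    refine Finset.sum_eq_zero fun i hi => ?_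
    rw [mem_range] at hi
    rw [← mul_assoc, h.zero m le_rfl i (by omega) (by omega), zero_mul]
  have haS : ∀ j < m, a * S (j + 1) = S j := by
    intro j hj
    rw [ha, sum_mul, Finset.sum_eq_single j]
    · rw [mul_assoc, h.one (j + 1) (by omega), mul_one]
    · intro i hi hij
      rw [mem_range] at hi
      rw [mul_assoc, h.zero (i + 1) (by omega) (j + 1) (by omega) (by omega), mul_zero]
    · intro hj'; exact absurd (mem_range.2 hj) hj'
  have hTpow : ∀ k i, i + k ≤ m → T i * a ^ k = T (i + k) := by
    intro k
    induction k with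
    | zero => intro i _; simp
    | succ k ih =>
      intro i hi
      rw [pow_succ, ← mul_assoc, ih i (by omega), hTa (i + k) (by omega)]
      rfl
  have hSpow : ∀ k i, i + k ≤ m → a ^ k * S (i + k) = S i := by
    intro k
    induction k with
    | zero => intro i _; simp
    | succ k ih =>
      intro i hi
      rw [pow_succ, mul_assoc, show i + (k + 1) = (i + k) + 1 by ring, haS (i + k) (by omega),
        ih i (by omega)]
  have ham : a ^ m = S 0 * T m := by
    calc a ^ m = (∑ i ∈ range (m + 1), S i * T i) * a ^ m := by rw [h.sum, one_mul]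
      _ = ∑ i ∈ range (m + 1), S i * (T i * a ^ m) := by
          rw [sum_mul]
          exact sum_congr rfl fun i _ => by rw [mul_assoc]
      _ = S 0 * (T 0 * a ^ m) := by
          rw [Finset.sum_eq_single 0]
          · intro i hi hi0
            rw [mem_range] at hi
            have : T i * a ^ m = 0 := by
              have e : a ^ m = a ^ (m - i) * (a * a ^ (i - 1)) := by
                rw [← pow_succ', ← pow_add]
                congr 1; omega
              rw [e, ← mul_assoc, hTpow (m - i) i (by omega), show i + (m - i) = m by omega,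
                ← mul_assoc, hTma, zero_mul]
            rw [this, mul_zero]
          · intro h0; exact absurd (mem_range.2 (by omega)) h0
      _ = S 0 * T m := by rw [hTpow m 0 (by omega), zero_add]
  have hTmb : T m * b = T 0 := by
    rw [hb, mul_add, ← mul_assoc, h.one m le_rfl, one_mul, mul_sum, Finset.sum_eq_zero, add_zero]
    intro k _
    rw [← mul_assoc, ← mul_assoc, h.zero m le_rfl 0 (by omega) (by omega), zero_mul, zero_mul]
  have he : S 0 * T 0 ∈ Q := by
    have : a ^ m * b = S 0 * T 0 := by rw [ham, mul_assoc, hTmb]
    rw [← this]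
    exact mul_mem (pow_mem haQ m) hbQ
  have hbS : b * S 0 = S m := by
    rw [hb, add_mul, mul_assoc, h.one 0 (by omega), mul_one, sum_mul, Finset.sum_eq_zero, add_zero]
    intro k hk
    rw [mem_range] at hk
    rw [mul_assoc, h.zero (k + 1) (by omega) 0 (by omega) (by omega), mul_zero]
  have hcol : ∀ i ≤ m, S i * T 0 ∈ Q := by
    intro i hi
    have : a ^ (m - i) * (b * (S 0 * T 0)) = S i * T 0 := by
      rw [← mul_assoc b, hbS, ← mul_assoc]
      have := hSpow (m - i) i (by omega)
      rw [show i + (m - i) = m by omega] at this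
      rw [this]
    rw [← this]
    exact mul_mem (pow_mem haQ _) (mul_mem hbQ he)
  have hrow : ∀ j ≤ m, S 0 * T j ∈ Q := by
    intro j hj
    have : (S 0 * T 0) * a ^ j = S 0 * T j := by
      rw [mul_assoc, hTpow j 0 (by omega), zero_add]
    rw [← this]
    exact mul_mem he (pow_mem haQ _)
  have hgk : ∀ k < m, S 0 * g k * T 0 ∈ Q := by
    intro k hk
    have h1 : T 0 * b * S (k + 1) = g k := by
      rw [hb, mul_add, ← mul_assoc, h.zero 0 (by omega) m le_rfl (by omega), zero_mul, zero_add,
        mul_sum, sum_mul, Finset.sum_eq_single k]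
      · calc T 0 * (S 0 * g k * T (k + 1)) * S (k + 1)
            = (T 0 * S 0) * g k * (T (k + 1) * S (k + 1)) := by noncomm_ring
          _ = g k := by rw [h.one 0 (by omega), h.one (k + 1) (by omega), one_mul, mul_one]
      · intro l hl hlk
        rw [mem_range] at hl
        calc T 0 * (S 0 * g l * T (l + 1)) * S (k + 1)
            = T 0 * (S 0 * g l) * (T (l + 1) * S (k + 1)) := by noncomm_ring
          _ = 0 := by rw [h.zero (l + 1) (by omega) (k + 1) (by omega) (by omega), mul_zero]
      · intro hk'; exact absurd (mem_range.2 hk) hk'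
    have h2 : (S 0 * T 0) * b * (S (k + 1) * T 0) = S 0 * g k * T 0 := by
      calc (S 0 * T 0) * b * (S (k + 1) * T 0) = S 0 * (T 0 * b * S (k + 1)) * T 0 := by
            noncomm_ring
        _ = _ := by rw [h1]
    rw [← h2]
    exact mul_mem (mul_mem he hbQ) (hcol (k + 1) (by omega))
  -- the subalgebra of all `r` with `S 0 * r * T 0 ∈ Q`
  let P : Subalgebra K R :=
    { carrier := {r | S 0 * r * T 0 ∈ Q}
      mul_mem' := by
        intro r r' hr hr'
        have e : S 0 * (r * r') * T 0 = (S 0 * r * T 0) * (S 0 * r' * T 0) := by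
          calc S 0 * (r * r') * T 0 = S 0 * r * 1 * r' * T 0 := by noncomm_ring
            _ = S 0 * r * (T 0 * S 0) * r' * T 0 := by rw [h.one 0 (by omega)]
            _ = _ := by noncomm_ring
        show S 0 * (r * r') * T 0 ∈ Q
        rw [e]
        exact mul_mem hr hr'
      add_mem' := by
        intro r r' hr hr'
        have e : S 0 * (r + r') * T 0 = S 0 * r * T 0 + S 0 * r' * T 0 := by noncomm_ring
        show S 0 * (r + r') * T 0 ∈ Q
        rw [e]
        exact add_mem hr hr'
      algebraMap_mem' := by
        intro c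
        show S 0 * algebraMap K R c * T 0 ∈ Q
        rw [← Algebra.commutes c (S 0), mul_assoc]
        exact mul_mem (Subalgebra.algebraMap_mem Q c) he }
  have hP : P = ⊤ := hg P fun k hk => hgk k hk
  have hall : ∀ r : R, S 0 * r * T 0 ∈ Q := by
    intro r
    have : r ∈ P := by rw [hP]; trivial
    exact this
  rw [eq_top_iff]
  intro r _
  rw [h.expand r]
  refine Subalgebra.sum_mem _ fun i hi => Subalgebra.sum_mem _ fun j hj => ?_
  rw [mem_range] at hi hj
  have e : S i * (T i * r * S j) * T j =
      (S i * T 0) * (S 0 * (T i * r * S j) * T 0) * (S 0 * T j) := by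
    calc S i * (T i * r * S j) * T j = S i * 1 * (T i * r * S j) * 1 * T j := by noncomm_ring
      _ = S i * (T 0 * S 0) * (T i * r * S j) * (T 0 * S 0) * T j := by
          rw [h.one 0 (by omega)]
      _ = _ := by noncomm_ring
  rw [e]
  exact mul_mem (mul_mem (hcol i (by omega)) (hall _)) (hrow j (by omega))

end fam

end Pool.Agent.Y754.SQ
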