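import Pool.Agent.Y754.SQ.Leavitt

/-!
# Embedding a countably generated algebra in an algebra isomorphic to its own square
-/

set_option autoImplicit false

open Finset

namespace Pool.Agent.Y754.SQ

universe u v

variable (K : Type u) [CommRing K] (S : Type v) [Ring S] [Algebra K S]

/-- the ring of `K`-linear endomorphisms of the module of all functions `ℕ × ℕ → S` -/
abbrev E := Module.End K (ℕ × ℕ → S)

def s0 : E K S where
  toFun f := fun p => if p.1 = 0 then f (Nat.unpair p.2) else 0
  map_add' f g := by funext p; by_cases h : p.1 = 0 <;> simp [h]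
  map_smul' c f := by funext p; by_cases h : p.1 = 0 <;> simp [h]

def t0 : E K S where
  toFun f := fun p => f (0, Nat.pair p.1 p.2)
  map_add' _ _ := rfl
  map_smul' _ _ := rfl

def s1 : E K S where
  toFun f := fun p => if p.1 = 0 then 0 else f (p.1 - 1, p.2)
  map_add' f g := by funext p; by_cases h : p.1 = 0 <;> simp [h]
  map_smul' c f := by funext p; by_cases h : p.1 = 0 <;> simp [h]

def t1 : E K S where
  toFun f := fun p => f (p.1 + 1, p.2)
  map_add' _ _ := rfl
  map_smul' _ _ := rfl

/-- the diagonal operator attached to a binary sequence -/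
def D (x : ℕ → Bool) : E K S where
  toFun f := fun p => if x p.1 then f p else 0
  map_add' f g := by funext p; by_cases h : x p.1 <;> simp [h]
  map_smul' c f := by funext p; by_cases h : x p.1 <;> simp [h]

/-- the diagonal operator attached to a sequence of elements of `S` -/
def diag (a : ℕ → S) : E K S where
  toFun f := fun p => a p.1 * f p
  map_add' f g := by funext p; simp [mul_add]
  map_smul' c f := by funext p; simp

/-- multiplication from the left by an element of `S` -/
def mulL : S →ₐ[K] E K S where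
  toFun a :=
    { toFun := fun f p => a * f p
      map_add' := fun f g => by funext p; simp [mul_add]
      map_smul' := fun c f => by funext p; simp }
  map_one' := by
    refine LinearMap.ext fun f => ?_
    funext p
    show 1 * f p = f p
    rw [one_mul]
  map_mul' a b := by
    refine LinearMap.ext fun f => ?_
    funext p
    show a * b * f p = a * (b * f p)
    rw [mul_assoc]
  map_zero' := by
    refine LinearMap.ext fun f => ?_
    funext p
    show 0 * f p = 0
    rw [zero_mul]
  map_add' a b := by
    refine LinearMap.ext fun f => ?_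
    funext p
    show (a + b) * f p = a * f p + b * f p
    rw [add_mul]
  commutes' c := by
    refine LinearMap.ext fun f => ?_
    funext p
    show algebraMap K S c * f p = c • f p
    rw [Algebra.smul_def]

variable {K S}

theorem s0_apply (f : ℕ × ℕ → S) (p : ℕ × ℕ) :
    s0 K S f p = if p.1 = 0 then f (Nat.unpair p.2) else 0 := rfl
theorem t0_apply (f : ℕ × ℕ → S) (p : ℕ × ℕ) : t0 K S f p = f (0, Nat.pair p.1 p.2) := rfl
theorem s1_apply (f : ℕ × ℕ → S) (p : ℕ × ℕ) :
    s1 K S f p = if p.1 = 0 then 0 else f (p.1 - 1, p.2) := rfl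
theorem t1_apply (f : ℕ × ℕ → S) (p : ℕ × ℕ) : t1 K S f p = f (p.1 + 1, p.2) := rfl
theorem D_apply (x : ℕ → Bool) (f : ℕ × ℕ → S) (p : ℕ × ℕ) :
    D K S x f p = if x p.1 then f p else 0 := rfl
theorem diag_apply (a : ℕ → S) (f : ℕ × ℕ → S) (p : ℕ × ℕ) :
    diag K S a f p = a p.1 * f p := rfl
theorem mulL_apply (a : S) (f : ℕ × ℕ → S) (p : ℕ × ℕ) : mulL K S a f p = a * f p := rfl

theorem mulL_injective : Function.Injective (mulL K S) := by
  intro a b hab
  have h := congrFun (congrArg (fun (φ : E K S) => φ (fun _ => 1)) hab) (0, 0)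
  simpa [mulL_apply] using h

theorem r00 : t0 K S * s0 K S = 1 := by
  refine LinearMap.ext fun f => ?_
  funext p
  show s0 K S f (0, Nat.pair p.1 p.2) = f p
  simp [s0_apply]

theorem r11 : t1 K S * s1 K S = 1 := by
  refine LinearMap.ext fun f => ?_
  funext p
  show s1 K S f (p.1 + 1, p.2) = f p
  simp [s1_apply]

theorem r01 : t0 K S * s1 K S = 0 := by
  refine LinearMap.ext fun f => ?_
  funext p
  show s1 K S f (0, Nat.pair p.1 p.2) = 0
  simp [s1_apply]

theorem r10 : t1 K S * s0 K S = 0 := by
  refine LinearMap.ext fun f => ?_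
  funext p
  show s0 K S f (p.1 + 1, p.2) = 0
  simp [s0_apply]

theorem rsum : s0 K S * t0 K S + s1 K S * t1 K S = 1 := by
  refine LinearMap.ext fun f => ?_
  funext p
  obtain ⟨n, m⟩ := p
  show s0 K S (t0 K S f) (n, m) + s1 K S (t1 K S f) (n, m) = f (n, m)
  cases n with
  | zero => simp [s0_apply, s1_apply, t0_apply]
  | succ n => simp [s0_apply, s1_apply, t1_apply]

theorem t1_pow (n : ℕ) (f : ℕ × ℕ → S) (p : ℕ × ℕ) :
    (t1 K S ^ n) f p = f (p.1 + n, p.2) := by
  induction n generalizing f with
  | zero => rfl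
  | succ n ih =>
    rw [pow_succ]
    show (t1 K S ^ n) (t1 K S f) p = _
    rw [ih, t1_apply]
    rfl

theorem s1_pow (n : ℕ) (f : ℕ × ℕ → S) (q : ℕ) :
    (s1 K S ^ n) f (n, q) = f (0, q) := by
  induction n generalizing f with
  | zero => rfl
  | succ n ih =>
    rw [pow_succ']
    show s1 K S ((s1 K S ^ n) f) (n + 1, q) = _
    rw [s1_apply]
    simp [ih]

/-- every coefficient of a diagonal operator is in the subalgebra generated -/
theorem coeff (a : ℕ → S) (n : ℕ) :
    t0 K S * t1 K S ^ n * diag K S a * s1 K S ^ n * s0 K S = mulL K S (a n) := by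
  refine LinearMap.ext fun f => ?_
  funext p
  show t0 K S ((t1 K S ^ n) (diag K S a ((s1 K S ^ n) (s0 K S f)))) p = _
  rw [t0_apply, t1_pow, diag_apply, mulL_apply]
  simp only [zero_add]
  rw [s1_pow, s0_apply]
  simp

/-- prepend a letter to a sequence -/
def pre (b : Bool) (x : ℕ → Bool) : ℕ → Bool := fun n => Nat.casesOn n b x

theorem pre_zero (b : Bool) (x : ℕ → Bool) : pre b x 0 = b := rfl
theorem pre_succ (b : Bool) (x : ℕ → Bool) (n : ℕ) : pre b x (n + 1) = x n := rfl

theorem t1_D_s1 (b : Bool) (x : ℕ → Bool) : t1 K S * D K S (pre b x) * s1 K S = D K S x := by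
  refine LinearMap.ext fun f => ?_
  funext p
  show (D K S (pre b x) (s1 K S f)) (p.1 + 1, p.2) = D K S x f p
  simp [D_apply, s1_apply, pre_succ]

theorem t0_D_s0 (b : Bool) (x : ℕ → Bool) :
    t0 K S * D K S (pre b x) * s0 K S = if b then 1 else 0 := by
  refine LinearMap.ext fun f => ?_
  funext p
  cases b
  · show (D K S (pre false x) (s0 K S f)) (0, Nat.pair p.1 p.2) = 0
    simp [D_apply, pre_zero]
  · show (D K S (pre true x) (s0 K S f)) (0, Nat.pair p.1 p.2) = f p
    simp [D_apply, s0_apply, pre_zero]

theorem D_pre (b : Bool) (x : ℕ → Bool) :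
    D K S (pre b x) = (if b then s0 K S * t0 K S else 0) + s1 K S * D K S x * t1 K S := by
  refine LinearMap.ext fun f => ?_
  funext p
  obtain ⟨n, m⟩ := p
  cases n with
  | zero =>
    cases b
    · show (if pre false x 0 then f (0, m) else 0) =
        (0 : ℕ × ℕ → S) (0, m) + s1 K S (D K S x (t1 K S f)) (0, m)
      simp [pre_zero, s1_apply]
    · show (if pre true x 0 then f (0, m) else 0) =
        s0 K S (t0 K S f) (0, m) + s1 K S (D K S x (t1 K S f)) (0, m)
      simp [pre_zero, s1_apply, s0_apply, t0_apply]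
  | succ n =>
    cases b
    · show (if pre false x (n + 1) then f (n + 1, m) else 0)
        = (0 : ℕ × ℕ → S) (n + 1, m) + s1 K S (D K S x (t1 K S f)) (n + 1, m)
      simp [pre_succ, s1_apply, D_apply, t1_apply] <;> rfl
    · show (if pre true x (n + 1) then f (n + 1, m) else 0)
        = s0 K S (t0 K S f) (n + 1, m) + s1 K S (D K S x (t1 K S f)) (n + 1, m)
      simp [pre_succ, s1_apply, s0_apply, D_apply, t1_apply] <;> rfl

/-- the generators, as functions of the binary sequence -/
def gen (a : ℕ → S) (k : ℕ) : (ℕ → Bool) → E K S :=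
  match k with
  | 0 => fun _ => s0 K S
  | 1 => fun _ => t0 K S
  | 2 => fun _ => s1 K S
  | 3 => fun _ => t1 K S
  | 4 => D K S
  | _ => fun _ => diag K S a

/-- the algebra -/
def R (a : ℕ → S) : Subalgebra K ((ℕ → Bool) → E K S) :=
  Algebra.adjoin K (gen a '' Set.Iio 6)

variable (a : ℕ → S)

theorem gen_mem {k : ℕ} (hk : k < 6) : gen a k ∈ R (K := K) a :=
  Algebra.subset_adjoin ⟨k, hk, rfl⟩

theorem s0_mem : (fun _ => s0 K S) ∈ R (K := K) a := gen_mem a (k := 0) (by norm_num)
theorem t0_mem : (fun _ => t0 K S) ∈ R (K := K) a := gen_mem a (k := 1) (by norm_num)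
theorem s1_mem : (fun _ => s1 K S) ∈ R (K := K) a := gen_mem a (k := 2) (by norm_num)
theorem t1_mem : (fun _ => t1 K S) ∈ R (K := K) a := gen_mem a (k := 3) (by norm_num)
theorem D_mem : D K S ∈ R (K := K) a := gen_mem a (k := 4) (by norm_num)
theorem diag_mem : (fun _ => diag K S a) ∈ R (K := K) a := gen_mem a (k := 5) (by norm_num)

/-- restriction to the sequences starting with `b`, shifted -/
def res (b : Bool) : ((ℕ → Bool) → E K S) →ₐ[K] ((ℕ → Bool) → E K S) where
  toFun F := fun x => F (pre b x)
  map_one' := rfl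
  map_mul' _ _ := rfl
  map_zero' := rfl
  map_add' _ _ := rfl
  commutes' _ := rfl

theorem res_D (b : Bool) :
    res b (D K S) = (if b then (fun _ => s0 K S) * (fun _ => t0 K S) else 0) +
      (fun _ => s1 K S) * D K S * fun _ => t1 K S := by
  funext x
  show D K S (pre b x) = _
  rw [D_pre]
  cases b <;> rfl

theorem res_mem (b : Bool) {F : (ℕ → Bool) → E K S} (hF : F ∈ R (K := K) a) :
    res b F ∈ R (K := K) a := by
  have h : R (K := K) a ≤ (R (K := K) a).comap (res b) := by
    apply Algebra.adjoin_le
    rintro G ⟨k, hk, rfl⟩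
    show res b (gen a k) ∈ R (K := K) a
    rw [Set.mem_Iio] at hk
    interval_cases k
    · exact s0_mem a
    · exact t0_mem a
    · exact s1_mem a
    · exact t1_mem a
    · show res b (D K S) ∈ R (K := K) a
      rw [res_D]
      refine add_mem ?_ (mul_mem (mul_mem (s1_mem a) (D_mem a)) (t1_mem a))
      cases b
      · exact zero_mem _
      · exact mul_mem (s0_mem a) (t0_mem a)
    · exact diag_mem a
  exact h hF

/-- the restriction maps from `R` to `R` -/
def resR (b : Bool) : R (K := K) a →ₐ[K] R (K := K) a :=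
  ((res b).comp (R (K := K) a).val).codRestrict (R (K := K) a) (fun F => res_mem a b F.2)

theorem resR_surj (b : Bool) : Function.Surjective (resR (K := K) a b) := by
  have h : R (K := K) a ≤ (R (K := K) a).map (res b) := by
    apply Algebra.adjoin_le
    rintro G ⟨k, hk, rfl⟩
    rw [Set.mem_Iio] at hk
    interval_cases k
    · exact ⟨_, s0_mem a, rfl⟩
    · exact ⟨_, t0_mem a, rfl⟩
    · exact ⟨_, s1_mem a, rfl⟩
    · exact ⟨_, t1_mem a, rfl⟩
    · refine ⟨(fun _ => t1 K S) * D K S * fun _ => s1 K S,
        mul_mem (mul_mem (t1_mem a) (D_mem a)) (s1_mem a), ?_⟩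
      funext x
      exact t1_D_s1 b x
    · exact ⟨_, diag_mem a, rfl⟩
  rintro ⟨F, hF⟩
  obtain ⟨G, hG, rfl⟩ := h hF
  exact ⟨⟨G, hG⟩, rfl⟩

/-- the central idempotent `x ↦ x 0` -/
def e : R (K := K) a := ⟨(fun _ => t0 K S) * D K S * fun _ => s0 K S,
  mul_mem (mul_mem (t0_mem a) (D_mem a)) (s0_mem a)⟩

theorem resR_e_true : resR (K := K) a true (e a) = 1 := by
  apply Subtype.ext
  funext x
  have := t0_D_s0 (K := K) (S := S) true x
  exact this

theorem resR_e_false : resR (K := K) a false (e a) = 0 := by
  apply Subtype.ext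
  funext x
  have := t0_D_s0 (K := K) (S := S) false x
  exact this

theorem joint_inj (F : R (K := K) a) (h0 : resR a false F = 0) (h1 : resR a true F = 0) :
    F = 0 := by
  apply Subtype.ext
  funext x
  have hx : pre (x 0) (fun n => x (n + 1)) = x := by
    funext n
    cases n <;> rfl
  have g0 : ∀ y, F.1 (pre false y) = 0 := fun y => congrFun (congrArg Subtype.val h0) y
  have g1 : ∀ y, F.1 (pre true y) = 0 := fun y => congrFun (congrArg Subtype.val h1) y
  have : F.1 x = 0 := by
    rw [← hx]
    cases x 0
    · exact g0 _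
    · exact g1 _
  exact this

/-- the complementary central idempotent -/
def e' : R (K := K) a := ⟨1 - (fun _ => t0 K S) * D K S * fun _ => s0 K S,
  sub_mem (one_mem _) (mul_mem (mul_mem (t0_mem a) (D_mem a)) (s0_mem a))⟩

theorem resR_e'_true : resR (K := K) a true (e' a) = 0 := by
  apply Subtype.ext
  funext x
  have h := t0_D_s0 (K := K) (S := S) true x
  show 1 - t0 K S * D K S (pre true x) * s0 K S = 0
  rw [h]
  simp

theorem resR_e'_false : resR (K := K) a false (e' a) = 1 := by
  apply Subtype.ext
  funext x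
  have h := t0_D_s0 (K := K) (S := S) false x
  show 1 - t0 K S * D K S (pre false x) * s0 K S = 1
  rw [h]
  simp

theorem bij : Function.Bijective ((resR (K := K) a false).prod (resR a true)) := by
  constructor
  · rw [injective_iff_map_eq_zero]
    intro F hF
    exact joint_inj a F (congrArg Prod.fst hF) (congrArg Prod.snd hF)
  · rintro ⟨p, q⟩
    obtain ⟨f, hf⟩ := resR_surj a false p
    obtain ⟨g, hg⟩ := resR_surj a true q
    refine ⟨e' a * f + e a * g, ?_⟩
    apply Prod.ext
    · show resR a false (e' a * f + e a * g) = p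
      rw [map_add, map_mul, map_mul, resR_e'_false, resR_e_false, hf, one_mul, zero_mul, add_zero]
    · show resR a true (e' a * f + e a * g) = q
      rw [map_add, map_mul, map_mul, resR_e'_true, resR_e_true, hg, one_mul, zero_mul, zero_add]

/-- the algebra is isomorphic to its own square -/
theorem square : Nonempty (R (K := K) a ≃ₐ[K] R (K := K) a × R (K := K) a) :=
  ⟨AlgEquiv.ofBijective _ (bij a)⟩

/-- the generators as elements of the algebra -/
def genR (k : ℕ) : R (K := K) a := if hk : k < 6 then ⟨gen a k, gen_mem a hk⟩ else 0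

theorem genR_top (Q : Subalgebra K (R (K := K) a)) (hQ : ∀ k < 6, genR a k ∈ Q) : Q = ⊤ := by
  rw [eq_top_iff]
  rintro ⟨F, hF⟩ -
  have h : R (K := K) a ≤ Q.map (R (K := K) a).val := by
    apply Algebra.adjoin_le
    rintro G ⟨k, hk, rfl⟩
    refine ⟨genR a k, hQ k hk, ?_⟩
    unfold genR
    rw [dif_pos (show k < 6 from hk)]
    rfl
  obtain ⟨G, hG, hGF⟩ := h hF
  have : G = ⟨F, hF⟩ := Subtype.ext hGF
  rw [← this]
  exact hG

/-- finite Leavitt families in the algebra -/
theorem fam (m : ℕ) : ∃ S' T' : ℕ → R (K := K) a, Fam m S' T' := by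
  refine exists_fam ⟨_, s0_mem a⟩ ⟨_, t0_mem a⟩ ⟨_, s1_mem a⟩ ⟨_, t1_mem a⟩ ?_ ?_ ?_ ?_ ?_ m
  · apply Subtype.ext; funext x; exact r00
  · apply Subtype.ext; funext x; exact r11
  · apply Subtype.ext; funext x; exact r01
  · apply Subtype.ext; funext x; exact r10
  · apply Subtype.ext; funext x; exact rsum

/-- the algebra is generated by two elements -/
theorem two_gen : ∃ p q : R (K := K) a, Algebra.adjoin K {p, q} = ⊤ := by
  obtain ⟨S', T', h⟩ := fam (K := K) a 6
  exact h.two_gen (by norm_num) (genR a) (genR_top a)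

/-- the algebra is isomorphic to all its matrix rings -/
theorem matrix (n : ℕ) (hn : 1 ≤ n) :
    Nonempty (R (K := K) a ≃ₐ[K] Matrix (Fin n) (Fin n) (R (K := K) a)) := by
  obtain ⟨m, rfl⟩ : ∃ m, n = m + 1 := ⟨n - 1, by omega⟩
  obtain ⟨S', T', h⟩ := fam (K := K) a m
  exact h.matrix

/-- an algebra generated by the sequence `a` embeds in the algebra -/
theorem embed (ha : Algebra.adjoin K (Set.range a) = ⊤) :
    ∃ i : S →ₐ[K] R (K := K) a, Function.Injective i := by
  have hconst : ∀ s : S, (fun _ => mulL K S s) ∈ R (K := K) a := by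
    let c : S →ₐ[K] ((ℕ → Bool) → E K S) :=
      { toFun := fun s _ => mulL K S s
        map_one' := by funext x; exact map_one _
        map_mul' := fun s t => by funext x; exact map_mul _ _ _
        map_zero' := by funext x; exact map_zero _
        map_add' := fun s t => by funext x; exact map_add _ _ _
        commutes' := fun k => by funext x; exact AlgHom.commutes _ _ }
    have h : (⊤ : Subalgebra K S) ≤ (R (K := K) a).comap c := by
      rw [← ha]
      apply Algebra.adjoin_le
      rintro _ ⟨n, rfl⟩
      show c (a n) ∈ R (K := K) a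
      have e1 : c (a n) = (fun _ => t0 K S) * (fun _ => t1 K S) ^ n * (fun _ => diag K S a) *
          (fun _ => s1 K S) ^ n * (fun _ => s0 K S) := by
        funext x
        exact (coeff a n).symm
      rw [e1]
      exact mul_mem (mul_mem (mul_mem (mul_mem (t0_mem a) (pow_mem (t1_mem a) n)) (diag_mem a))
        (pow_mem (s1_mem a) n)) (s0_mem a)
    exact fun s => h (Algebra.mem_top (x := s))
  refine ⟨{ toFun := fun s => ⟨fun _ => mulL K S s, hconst s⟩
            map_one' := by apply Subtype.ext; funext x; exact map_one _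
            map_mul' := fun s t => by apply Subtype.ext; funext x; exact map_mul _ _ _
            map_zero' := by apply Subtype.ext; funext x; exact map_zero _
            map_add' := fun s t => by apply Subtype.ext; funext x; exact map_add _ _ _
            commutes' := fun k => by apply Subtype.ext; funext x; exact AlgHom.commutes _ _ },
    ?_⟩
  intro s t hst
  have h : (fun _ => mulL K S s : (ℕ → Bool) → E K S) = fun _ => mulL K S t :=
    congrArg Subtype.val hst
  exact mulL_injective (congrFun h (fun _ => false))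

end Pool.Agent.Y754.SQ
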